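import Pool.Agent.Run7.h350.EP.Defs2

/-!
Cutoff at infinity.
-/

set_option autoImplicit false

namespace Pool.Agent.Run7.h350.EP

open MeasureTheory Set Topology
open scoped ContDiff

/-- smooth `θ` with `θ = 0` on `ball 0 R`, `θ = 1` outside `ball 0 (2 R)`, `gsq θ ≤ ε`. -/
theorem exists_cut (m : ℕ) (R₀ ε : ℝ) (hε : 0 < ε) :
    ∃ (θ : X m → ℝ) (R : ℝ), R₀ < R ∧ 0 < R ∧ ContDiff ℝ ∞ θ ∧
      (∀ x ∈ Metric.ball (0 : X m) R, θ x = 0) ∧
      (∀ x, x ∉ Metric.ball (0 : X m) (2 * R) → θ x = 1) ∧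
      (∀ x, gsq θ x ≤ ε) ∧ (∀ x, 0 ≤ θ x ∧ θ x ≤ 1) := by
  classical
  let χ : ContDiffBump (0 : X m) := ⟨1, 2, one_pos, one_lt_two⟩
  have hχ : ContDiff ℝ ∞ (χ : X m → ℝ) := χ.contDiff
  obtain ⟨C, hC⟩ : ∃ C, ∀ x, ‖fderiv ℝ (χ : X m → ℝ) x‖ ≤ C := by
    have h1 : Continuous (fderiv ℝ (χ : X m → ℝ)) :=
      hχ.continuous_fderiv (by simp)
    have h2 : HasCompactSupport (fderiv ℝ (χ : X m → ℝ)) := χ.hasCompactSupport.fderiv (𝕜 := ℝ)
    obtain ⟨C, hC⟩ := h2.exists_bound_of_continuous h1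
    exact ⟨C, hC⟩
  have hC0 : 0 ≤ C := le_trans (norm_nonneg _) (hC 0)
  set M : ℝ := ((m : ℝ) + 1) * C ^ 2 with hM
  have hM0 : 0 ≤ M := by positivity
  set R : ℝ := max (R₀ + 1) (1 + M / ε) with hR
  have hR0 : R₀ < R := lt_of_lt_of_le (by linarith) (le_max_left _ _)
  have hR1 : 1 + M / ε ≤ R := le_max_right _ _
  have hMe : 0 ≤ M / ε := by positivity
  have hR1' : 1 ≤ R := by linarith
  have hRp : 0 < R := by linarith
  have hRn : R ≠ 0 := hRp.ne'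
  set θ : X m → ℝ := fun x => 1 - χ (R⁻¹ • x) with hθ
  have hnorm : ∀ x : X m, ‖R⁻¹ • x‖ = ‖x‖ / R := by
    intro x
    rw [norm_smul, norm_inv, Real.norm_of_nonneg hRp.le]
    field_simp
  have hθs : ContDiff ℝ ∞ θ := contDiff_const.sub (hχ.comp (contDiff_const_smul _))
  have hpd : ∀ x i, pd i θ x = - (R⁻¹ * fderiv ℝ (χ : X m → ℝ) (R⁻¹ • x) (EuclideanSpace.single i 1)) := by
    intro x i
    have h1 : HasFDerivAt (χ : X m → ℝ) (fderiv ℝ (χ : X m → ℝ) (R⁻¹ • x)) (R⁻¹ • x) :=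
      (hχ.differentiable (by simp) _).hasFDerivAt
    have h2 : HasFDerivAt (fun y : X m => R⁻¹ • y) (R⁻¹ • ContinuousLinearMap.id ℝ (X m)) x :=
      (hasFDerivAt_id x).const_smul R⁻¹
    have h3 := (h1.comp x h2).const_sub 1
    unfold pd
    rw [show θ = fun y => 1 - ((χ : X m → ℝ) ∘ fun y : X m => R⁻¹ • y) y from rfl]
    rw [h3.fderiv]
    simp
  refine ⟨θ, R, hR0, hRp, hθs, ?_, ?_, ?_, ?_⟩
  · intro x hx
    have h1 : ‖R⁻¹ • x‖ ≤ 1 := by
      rw [hnorm, div_le_one hRp]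
      have := mem_ball_zero_iff.mp hx
      exact this.le
    have h2 : (χ : X m → ℝ) (R⁻¹ • x) = 1 :=
      χ.one_of_mem_closedBall (by simpa [χ] using h1)
    simp [θ, h2]
  · intro x hx
    have h1 : 2 ≤ ‖R⁻¹ • x‖ := by
      rw [hnorm, le_div_iff₀ hRp]
      have : ¬ ‖x‖ < 2 * R := by simpa using hx
      linarith
    have h2 : (χ : X m → ℝ) (R⁻¹ • x) = 0 :=
      χ.zero_of_le_dist (by simpa [χ, dist_zero_right] using h1)
    simp [θ, h2]
  · intro x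
    have h1 : gsq θ x ≤ ∑ _i : Fin (m + 1), (R⁻¹ * C) ^ 2 := by
      unfold gsq
      refine Finset.sum_le_sum (fun i _ => ?_)
      rw [hpd x i]
      have h2 : |fderiv ℝ (χ : X m → ℝ) (R⁻¹ • x) (EuclideanSpace.single i 1)| ≤ C := by
        have h3 := (fderiv ℝ (χ : X m → ℝ) (R⁻¹ • x)).le_opNorm (EuclideanSpace.single i (1 : ℝ))
        simp only [Real.norm_eq_abs] at h3
        have h4 : ‖(EuclideanSpace.single i (1 : ℝ) : X m)‖ = 1 := by simp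
        rw [h4, mul_one] at h3
        exact h3.trans (hC _)
      have h5 : |-(R⁻¹ * fderiv ℝ (χ : X m → ℝ) (R⁻¹ • x) (EuclideanSpace.single i 1))| ≤ R⁻¹ * C := by
        rw [abs_neg, abs_mul, abs_of_pos (inv_pos.mpr hRp)]
        exact mul_le_mul_of_nonneg_left h2 (inv_nonneg.mpr hRp.le)
      exact sq_le_sq' (by linarith [(abs_le.mp h5).1]) (abs_le.mp h5).2
    have h6 : ∑ _i : Fin (m + 1), (R⁻¹ * C) ^ 2 = M * (R⁻¹) ^ 2 := by
      simp [hM]; ring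
    rw [h6] at h1
    refine h1.trans ?_
    have h7 : M * (R⁻¹) ^ 2 ≤ M * R⁻¹ := by
      refine mul_le_mul_of_nonneg_left ?_ hM0
      have h8 : R⁻¹ ≤ 1 := inv_le_one_of_one_le₀ hR1'
      have h9 : 0 ≤ R⁻¹ := inv_nonneg.mpr hRp.le
      nlinarith
    refine h7.trans ?_
    rw [← div_eq_mul_inv, div_le_iff₀ hRp]
    have h10 : M / ε ≤ R := by linarith
    rw [div_le_iff₀ hε] at h10
    linarith
  · intro x
    have h1 := χ.nonneg (x := R⁻¹ • x)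
    have h2 := χ.le_one (x := R⁻¹ • x)
    constructor
    · simp only [θ]; linarith
    · simp only [θ]; linarith

end Pool.Agent.Run7.h350.EP
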