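import Pool.Agent.Run7.h350.EP.Iface

/-!
Definitions of the final statement (MP_68b192_an) and basic lemmas.
-/

set_option autoImplicit false

namespace Pool.Agent.Run7.h350.EP

open MeasureTheory Set Topology
open scoped ContDiff

/-- `f ∈ C¹([0,1])`, `f(0) = f(1) = 0`, `f > 0` on `(0,1)` -/
def Reaction (f : ℝ → ℝ) : Prop :=
  DifferentiableOn ℝ f (Icc 0 1) ∧ ContinuousOn (derivWithin f (Icc 0 1)) (Icc 0 1) ∧
    f 0 = 0 ∧ f 1 = 0 ∧ ∀ s ∈ Ioo (0 : ℝ) 1, 0 < f s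

/-- positive bounded (classical) solution of `-Δu = f(u)` in `Ω`, `u = 0` on the boundary -/
def IsSolution {m : ℕ} (f : ℝ → ℝ) (Ω : Set (X m)) (u : X m → ℝ) : Prop :=
  ContDiffOn ℝ 2 u Ω ∧ ContinuousOn u (closure Ω) ∧
    (∀ p ∈ frontier Ω, ∃ L : X m →L[ℝ] ℝ, Filter.Tendsto (fderiv ℝ u) (𝓝[Ω] p) (𝓝 L)) ∧
    (∀ x ∈ Ω, 0 < u x ∧ u x ≤ 1) ∧ (∀ x ∈ frontier Ω, u x = 0) ∧
    ∀ x ∈ Ω, - lap u x = f (u x)

/-- `C_c^∞(Ω)` -/
def TestS {m : ℕ} (Ω : Set (X m)) (ψ : X m → ℝ) : Prop :=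
  ContDiff ℝ ∞ ψ ∧ HasCompactSupport ψ ∧ tsupport ψ ⊆ Ω

/-- the generalized principal eigenvalue `λ(-Δ - V, Ω)` -/
noncomputable def lam {m : ℕ} (V : X m → ℝ) (Ω : Set (X m)) : EReal :=
  ⨅ (ψ : X m → ℝ) (_ : TestS Ω ψ) (_ : ψ ≠ 0),
    (((∫ x, (gsq ψ x - V x * ψ x ^ 2)) / (∫ x, ψ x ^ 2) : ℝ) : EReal)

section basic

variable {m : ℕ}

lemma TestS.test1 {Ω : Set (X m)} {ψ : X m → ℝ} (h : TestS Ω ψ) : Test1 Ω ψ :=
  ⟨h.1.of_le (by exact_mod_cast le_top), h.2.1, h.2.2⟩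

lemma cont_ext {F : X m → ℝ} {Ω K : Set (X m)} (hΩ : IsOpen Ω) (hK : IsClosed K)
    (hKΩ : K ⊆ Ω) (hF : ContinuousOn F Ω) (h0 : ∀ x, x ∉ K → F x = 0) : Continuous F := by
  rw [continuous_iff_continuousAt]
  intro x
  by_cases hx : x ∈ Ω
  · exact hF.continuousAt (hΩ.mem_nhds hx)
  · have hxK : x ∉ K := fun h => hx (hKΩ h)
    have h1 : F =ᶠ[𝓝 x] fun _ => 0 := by
      filter_upwards [hK.isOpen_compl.mem_nhds hxK] with y hy using h0 y hy
    exact continuousAt_const.congr h1.symm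

lemma pd_cont {w : X m → ℝ} (hw : ContDiff ℝ 1 w) (i : Fin (m + 1)) : Continuous (pd i w) := by
  unfold pd
  exact (hw.continuous_fderiv one_ne_zero).clm_apply continuous_const

lemma gsq_cont {w : X m → ℝ} (hw : ContDiff ℝ 1 w) : Continuous (gsq w) := by
  unfold gsq
  exact continuous_finsetSum _ (fun i _ => (pd_cont hw i).pow 2)

lemma gsq_nonneg (w : X m → ℝ) (x : X m) : 0 ≤ gsq w x := by
  unfold gsq
  exact Finset.sum_nonneg (fun i _ => sq_nonneg _)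

lemma pd_zero {w : X m → ℝ} {x : X m} (hx : x ∉ tsupport w) (i : Fin (m + 1)) :
    pd i w x = 0 := by
  have h1 : w =ᶠ[𝓝 x] (fun _ => (0 : ℝ)) := notMem_tsupport_iff_eventuallyEq.mp hx
  unfold pd
  rw [h1.fderiv_eq]
  simp

lemma gsq_zero {w : X m → ℝ} {x : X m} (hx : x ∉ tsupport w) : gsq w x = 0 := by
  unfold gsq
  simp [pd_zero hx]

lemma val_zero {w : X m → ℝ} {x : X m} (hx : x ∉ tsupport w) : w x = 0 :=
  image_eq_zero_of_notMem_tsupport hx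

lemma int_sq {w : X m → ℝ} (hw : ContDiff ℝ 1 w) (hc : HasCompactSupport w) :
    Integrable (fun x => w x ^ 2) :=
  (hw.continuous.pow 2).integrable_of_hasCompactSupport
    (HasCompactSupport.intro hc (fun x hx => by simp [val_zero hx]))

lemma int_gsq {w : X m → ℝ} (hw : ContDiff ℝ 1 w) (hc : HasCompactSupport w) :
    Integrable (fun x => gsq w x) :=
  (gsq_cont hw).integrable_of_hasCompactSupport
    (HasCompactSupport.intro hc (fun x hx => gsq_zero hx))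

lemma int_weight {w c : X m → ℝ} {Ω : Set (X m)} (hΩ : IsOpen Ω) (hw : Test1 Ω w)
    (hc : ContinuousOn c Ω) : Integrable (fun x => c x * w x ^ 2) :=
  (cont_ext hΩ (isClosed_tsupport w) hw.2.2 (hc.mul (hw.1.continuous.pow 2).continuousOn)
    (fun x hx => by simp [val_zero hx])).integrable_of_hasCompactSupport
    (HasCompactSupport.intro hw.2.1 (fun x hx => by simp [val_zero hx]))

lemma int_weight' {w c : X m → ℝ} {Ω : Set (X m)} (hΩ : IsOpen Ω) (hw : Test1 Ω w)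
    (hc : ContinuousOn c Ω) : Integrable (fun x => c x * gsq w x) :=
  (cont_ext hΩ (isClosed_tsupport w) hw.2.2 (hc.mul (gsq_cont hw.1).continuousOn)
    (fun x hx => by simp [gsq_zero hx])).integrable_of_hasCompactSupport
    (HasCompactSupport.intro hw.2.1 (fun x hx => by simp [gsq_zero hx]))

end basic

end Pool.Agent.Run7.h350.EP
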