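import Pool.Agent.Run7.h350.EP.Defs2

/-!
Piece WV: the vertical derivative solves the linearised equation weakly.
-/

set_option autoImplicit false

namespace Pool.Agent.Run7.h350.EP

open MeasureTheory Set Topology
open scoped ContDiff

section

variable {m : ℕ}

/-- `∫ ∂_i F = 0` for `F ∈ C_c^1`. -/
lemma int_pd_zero {F : X m → ℝ} (hF : ContDiff ℝ 1 F) (hc : HasCompactSupport F)
    (i : Fin (m + 1)) : ∫ x, pd i F x = 0 := by
  have hcont : Continuous (pd i F) := pd_cont hF i
  have hi : Integrable (pd i F) := hcont.integrable_of_hasCompactSupport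
    (HasCompactSupport.intro hc (fun x hx => pd_zero hx i))
  have hiF : Integrable F := hF.continuous.integrable_of_hasCompactSupport hc
  have h := integral_mul_fderiv_eq_neg_fderiv_mul_of_integrable (μ := (volume : Measure (X m)))
    (f := fun _ : X m => (1 : ℝ)) (g := F) (v := EuclideanSpace.single i (1 : ℝ))
    (by simp) (by
      have hi' : Integrable (fun x => (fderiv ℝ F x) (EuclideanSpace.single i (1 : ℝ)))
        (volume : Measure (X m)) := hi
      simpa using hi') (by simpa using hiF)
    (fun x _ => differentiableAt_const _) (fun x _ => hF.differentiable one_ne_zero x)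
  simpa [pd] using h

/-- weak form of the equation for a `C²` function -/
lemma weak_u {Ω : Set (X m)} {u : X m → ℝ} (hΩ : IsOpen Ω) (hu : ContDiffOn ℝ 2 u Ω)
    {η : X m → ℝ} (hη : Test1 Ω η) :
    ∫ x, ∑ i, pd i u x * pd i η x = - ∫ x, lap u x * η x := by
  have hpdu : ∀ i, ContDiffOn ℝ 1 (pd i u) Ω := by
    intro i
    have h1 : ContDiffOn ℝ 1 (fderiv ℝ u) Ω := hu.fderiv_of_isOpen hΩ (by norm_num)
    exact h1.clm_apply contDiffOn_const
  have hext : ∀ {F : X m → ℝ}, ContDiffOn ℝ 1 F Ω → (∀ x, x ∉ tsupport η → F x = 0) →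
      ContDiff ℝ 1 F := by
    intro F hF h0
    rw [contDiff_iff_contDiffAt]
    intro x
    by_cases hx : x ∈ Ω
    · exact hF.contDiffAt (hΩ.mem_nhds hx)
    · have hxK : x ∉ tsupport η := fun h => hx (hη.2.2 h)
      have h1 : F =ᶠ[𝓝 x] fun _ => 0 := by
        filter_upwards [(isClosed_tsupport η).isOpen_compl.mem_nhds hxK] with y hy using h0 y hy
      exact contDiffAt_const.congr_of_eventuallyEq h1
  have hz : ∀ i, ∀ x, x ∉ tsupport η → pd i u x * η x = 0 := by
    intro i x hx
    simp [val_zero hx]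
  have hG : ∀ i, ContDiff ℝ 1 (fun x => pd i u x * η x) := fun i =>
    hext ((hpdu i).mul hη.1.contDiffOn) (hz i)
  have hGc : ∀ i, HasCompactSupport (fun x => pd i u x * η x) := fun i =>
    HasCompactSupport.intro hη.2.1 (hz i)
  have hder : ∀ i x, pd i (fun y => pd i u y * η y) x = pd i (pd i u) x * η x +
      pd i u x * pd i η x := by
    intro i x
    by_cases hx : x ∈ Ω
    · have h1 : DifferentiableAt ℝ (pd i u) x :=
        ((hpdu i).differentiableOn one_ne_zero x hx).differentiableAt (hΩ.mem_nhds hx)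
      have h2 : DifferentiableAt ℝ η x := hη.1.differentiable one_ne_zero x
      conv_lhs => unfold pd
      rw [show (fun y => (fderiv ℝ u y) (EuclideanSpace.single i 1) * η y) =
        fun y => pd i u y * η y from rfl, fderiv_fun_mul h1 h2]
      simp only [pd, add_apply, smul_apply, smul_eq_mul]
      ring
    · have hxK : x ∉ tsupport η := fun h => hx (hη.2.2 h)
      have h3 : x ∉ tsupport (fun y => pd i u y * η y) := fun h =>
        hxK (tsupport_mul_subset_right h)
      rw [pd_zero h3, val_zero hxK, pd_zero hxK]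
      ring
  have hA : ∀ i, Integrable (fun x => pd i (pd i u) x * η x) := by
    intro i
    have h1 : ContinuousOn (pd i (pd i u)) Ω := by
      have h2 : ContinuousOn (fderiv ℝ (pd i u)) Ω :=
        (hpdu i).continuousOn_fderiv_of_isOpen hΩ le_rfl
      exact h2.clm_apply continuousOn_const
    exact (cont_ext hΩ (isClosed_tsupport η) hη.2.2 (h1.mul hη.1.continuous.continuousOn)
      (fun x hx => by simp [val_zero hx])).integrable_of_hasCompactSupport
      (HasCompactSupport.intro hη.2.1 (fun x hx => by simp [val_zero hx]))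
  have hB : ∀ i, Integrable (fun x => pd i u x * pd i η x) := by
    intro i
    exact (cont_ext hΩ (isClosed_tsupport η) hη.2.2
      ((hpdu i).continuousOn.mul (pd_cont hη.1 i).continuousOn)
      (fun x hx => by simp [pd_zero hx])).integrable_of_hasCompactSupport
      (HasCompactSupport.intro hη.2.1 (fun x hx => by simp [pd_zero hx]))
  have hsum : ∀ i, (∫ x, pd i (pd i u) x * η x) + ∫ x, pd i u x * pd i η x = 0 := by
    intro i
    rw [← integral_add (hA i) (hB i), ← int_pd_zero (hG i) (hGc i) i]
    exact integral_congr_ae (Filter.Eventually.of_forall (fun x => (hder i x).symm))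
  rw [integral_finsetSum _ (fun i _ => hB i)]
  have h4 : ∫ x, lap u x * η x = ∑ i, ∫ x, pd i (pd i u) x * η x := by
    rw [← integral_finsetSum _ (fun i _ => hA i)]
    refine integral_congr_ae (Filter.Eventually.of_forall (fun x => ?_))
    simp only [lap, Finset.sum_mul]
  rw [h4, ← Finset.sum_neg_distrib]
  exact Finset.sum_congr rfl (fun i _ => by linarith [hsum i])

/-- differentiation of the shift -/
lemma deriv_shift {Ω : Set (X m)} (hΩ : IsOpen Ω) {a : X m → ℝ} (ha : ContDiffOn ℝ 1 a Ω)
    {ζ : X m → ℝ} (hζ : Continuous ζ) (hζc : HasCompactSupport ζ) (hζΩ : tsupport ζ ⊆ Ω) :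
    ∃ ε > 0, (∀ x ∈ tsupport ζ, ∀ s : ℝ, |s| < ε → x + s • ev m ∈ Ω) ∧
    HasDerivAt (fun s : ℝ => ∫ x, a (x + s • ev m) * ζ x)
      (∫ x, fderiv ℝ a x (ev m) * ζ x) 0 := by
  have hcpt : IsCompact (tsupport ζ) := hζc
  obtain ⟨δ, hδ, hδΩ⟩ := hcpt.exists_cthickening_subset_open hΩ hζΩ
  have hne : ‖ev m‖ = 1 := by simp [ev]
  have hmem : ∀ x ∈ tsupport ζ, ∀ s : ℝ, |s| < δ → x + s • ev m ∈ Metric.cthickening δ (tsupport ζ) := by
    intro x hx s hs
    refine Metric.mem_cthickening_of_dist_le _ x _ _ hx ?_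
    rw [dist_eq_norm, add_sub_cancel_left, norm_smul, hne, mul_one, Real.norm_eq_abs]
    exact hs.le
  refine ⟨δ, hδ, fun x hx s hs => hδΩ (hmem x hx s hs), ?_⟩
  have hcK : IsCompact (Metric.cthickening δ (tsupport ζ)) := hcpt.cthickening
  have hfd : ContinuousOn (fun x => fderiv ℝ a x (ev m)) Ω :=
    (ha.continuousOn_fderiv_of_isOpen hΩ le_rfl).clm_apply continuousOn_const
  obtain ⟨C, hC⟩ := hcK.exists_bound_of_continuousOn (hfd.mono hδΩ)
  have hcontF : ∀ b : X m → ℝ, ContinuousOn b Ω → ∀ s : ℝ, |s| < δ →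
      Continuous (fun x => b (x + s • ev m) * ζ x) := by
    intro b hb s hs
    have hshift : Continuous (fun x : X m => x + s • ev m) := by fun_prop
    refine cont_ext (Ω := (fun x : X m => x + s • ev m) ⁻¹' Ω) (K := tsupport ζ)
      (hΩ.preimage hshift) (isClosed_tsupport ζ) (fun x hx => hδΩ (hmem x hx s hs)) ?_
      (fun x hx => by simp [val_zero hx])
    exact (hb.comp hshift.continuousOn (fun x hx => hx)).mul hζ.continuousOn
  have h0 : |(0 : ℝ)| < δ := by simpa using hδ
  have key := hasDerivAt_integral_of_dominated_loc_of_deriv_le (μ := (volume : Measure (X m)))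
    (F := fun (s : ℝ) (x : X m) => a (x + s • ev m) * ζ x)
    (F' := fun (s : ℝ) (x : X m) => fderiv ℝ a (x + s • ev m) (ev m) * ζ x)
    (x₀ := (0 : ℝ)) (s := Metric.ball 0 δ) (bound := fun x => C * |ζ x|)
    (Metric.ball_mem_nhds 0 hδ)
    (by
      filter_upwards [Metric.ball_mem_nhds (0 : ℝ) hδ] with s hs
      rw [mem_ball_zero_iff, Real.norm_eq_abs] at hs
      exact (hcontF a ha.continuousOn s hs).aestronglyMeasurable)
    (by
      exact (hcontF a ha.continuousOn 0 h0).integrable_of_hasCompactSupport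
        (HasCompactSupport.intro hζc (fun x hx => by simp [val_zero hx])))
    ((hcontF _ hfd 0 h0).aestronglyMeasurable)
    (by
      refine Filter.Eventually.of_forall (fun x s hs => ?_)
      rw [mem_ball_zero_iff, Real.norm_eq_abs] at hs
      by_cases hx : x ∈ tsupport ζ
      · rw [norm_mul, Real.norm_eq_abs (ζ x)]
        exact mul_le_mul_of_nonneg_right (hC _ (hmem x hx s hs)) (abs_nonneg _)
      · simp [val_zero hx])
    (by
      exact (continuous_const.mul hζ.abs).integrable_of_hasCompactSupport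
        (HasCompactSupport.intro hζc (fun x hx => by simp [val_zero hx])))
    (by
      refine Filter.Eventually.of_forall (fun x s hs => ?_)
      rw [mem_ball_zero_iff, Real.norm_eq_abs] at hs
      by_cases hx : x ∈ tsupport ζ
      · have hxΩ : x + s • ev m ∈ Ω := hδΩ (hmem x hx s hs)
        have h1 : HasFDerivAt a (fderiv ℝ a (x + s • ev m)) (x + s • ev m) :=
          ((ha.differentiableOn one_ne_zero _ hxΩ).differentiableAt
            (hΩ.mem_nhds hxΩ)).hasFDerivAt
        have h2 : HasDerivAt (fun s : ℝ => x + s • ev m) (ev m) s := by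
          simpa using ((hasDerivAt_id s).smul_const (ev m)).const_add x
        exact (h1.comp_hasDerivAt s h2).mul_const (ζ x)
      · simp only [val_zero hx, mul_zero]
        exact hasDerivAt_const s 0)
  have h3 := key.2
  simpa using h3

theorem t_WV : S_WV := by
  intro m Ω u f g hΩ hu hu01 hfg hg heq η hη
  have hpdu : ∀ i, ContDiffOn ℝ 1 (pd i u) Ω := by
    intro i
    have h1 : ContDiffOn ℝ 1 (fderiv ℝ u) Ω := hu.fderiv_of_isOpen hΩ (by norm_num)
    exact h1.clm_apply contDiffOn_const
  have hfC : ContDiffOn ℝ 1 f (Ioo (0 : ℝ) 1) := by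
    have h1 : ContDiffOn ℝ (0 + 1) f (Ioo (0 : ℝ) 1) := by
      rw [contDiffOn_succ_iff_deriv_of_isOpen isOpen_Ioo]
      refine ⟨fun s hs => (hfg s hs).differentiableAt.differentiableWithinAt, by simp, ?_⟩
      rw [contDiffOn_zero]
      exact hg.congr (fun s hs => (hfg s hs).deriv)
    simpa using h1
  have hfu : ContDiffOn ℝ 1 (fun x => f (u x)) Ω :=
    hfC.comp (hu.of_le (by norm_num)) (fun x hx => ⟨(hu01 x hx).1, (hu01 x hx).2⟩)
  obtain ⟨ε, hε, hεΩ, hΨ⟩ := deriv_shift hΩ hfu hη.1.continuous hη.2.1 hη.2.2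
  have hηi : ∀ i, tsupport (pd i η) ⊆ tsupport η := by
    intro i
    refine closure_minimal ?_ (isClosed_tsupport η)
    intro x hx
    by_contra hcon
    exact hx (pd_zero hcon i)
  have hΦi : ∀ i, HasDerivAt (fun s : ℝ => ∫ x, pd i u (x + s • ev m) * pd i η x)
      (∫ x, fderiv ℝ (pd i u) x (ev m) * pd i η x) 0 := by
    intro i
    obtain ⟨_, _, _, h⟩ := deriv_shift hΩ (hpdu i) (pd_cont hη.1 i)
      (HasCompactSupport.intro hη.2.1 (fun x hx => pd_zero hx i)) ((hηi i).trans hη.2.2)
    exact h
  have hΦ := HasDerivAt.fun_sum (u := (Finset.univ : Finset (Fin (m + 1))))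
    (fun i _ => hΦi i)
  -- equality near 0
  have hev : (fun s : ℝ => ∑ i, ∫ x, pd i u (x + s • ev m) * pd i η x) =ᶠ[𝓝 0]
      fun s : ℝ => ∫ x, f (u (x + s • ev m)) * η x := by
    filter_upwards [Metric.ball_mem_nhds (0 : ℝ) hε] with s hs
    rw [mem_ball_zero_iff, Real.norm_eq_abs] at hs
    have hshift : Continuous (fun x : X m => x + s • ev m) := by fun_prop
    have hΩs : IsOpen ((fun x : X m => x + s • ev m) ⁻¹' Ω) := hΩ.preimage hshift
    have hηs : Test1 ((fun x : X m => x + s • ev m) ⁻¹' Ω) η :=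
      ⟨hη.1, hη.2.1, fun x hx => hεΩ x hx s hs⟩
    have hus : ContDiffOn ℝ 2 (fun x => u (x + s • ev m)) ((fun x : X m => x + s • ev m) ⁻¹' Ω) := by
      have h1 : ContDiff ℝ 2 (fun x : X m => x + s • ev m) := by fun_prop
      exact hu.comp h1.contDiffOn (fun x hx => hx)
    have hw := weak_u hΩs hus hηs
    have hpds : ∀ i, (pd i fun x => u (x + s • ev m)) = fun x => pd i u (x + s • ev m) := by
      intro i
      funext x
      unfold pd
      rw [fderiv_comp_add_right]
    have hlap : ∀ x, lap (fun x => u (x + s • ev m)) x = lap u (x + s • ev m) := by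
      intro x
      unfold lap
      refine Finset.sum_congr rfl (fun i _ => ?_)
      rw [hpds i]
      unfold pd
      rw [fderiv_comp_add_right (f := fun z => (fderiv ℝ u z) (EuclideanSpace.single i 1))]
    have hB : ∀ i, Integrable (fun x => pd i u (x + s • ev m) * pd i η x) := by
      intro i
      refine (cont_ext hΩs (isClosed_tsupport η) hηs.2.2
        (((hpdu i).continuousOn.comp hshift.continuousOn (fun x hx => hx)).mul
          (pd_cont hη.1 i).continuousOn)
        (fun x hx => by simp [pd_zero hx])).integrable_of_hasCompactSupport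
        (HasCompactSupport.intro hη.2.1 (fun x hx => by simp [pd_zero hx]))
    rw [← integral_finsetSum _ (fun i _ => hB i)]
    simp only [hpds] at hw
    rw [hw, ← integral_neg]
    refine integral_congr_ae (Filter.Eventually.of_forall (fun x => ?_))
    simp only [hlap]
    by_cases hx : x ∈ tsupport η
    · rw [← heq _ (hεΩ x hx s hs)]; ring
    · simp [val_zero hx]
  have huniq := hΦ.unique (hΨ.congr_of_eventuallyEq hev)
  have hC : ∀ i, Integrable (fun x => pd i (pd (Fin.last m) u) x * pd i η x) := by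
    intro i
    have h1 : ContinuousOn (pd i (pd (Fin.last m) u)) Ω :=
      ((hpdu (Fin.last m)).continuousOn_fderiv_of_isOpen hΩ le_rfl).clm_apply continuousOn_const
    exact (cont_ext hΩ (isClosed_tsupport η) hη.2.2 (h1.mul (pd_cont hη.1 i).continuousOn)
      (fun x hx => by simp [pd_zero hx])).integrable_of_hasCompactSupport
      (HasCompactSupport.intro hη.2.1 (fun x hx => by simp [pd_zero hx]))
  rw [integral_finsetSum _ (fun i _ => hC i)]
  have hL : ∀ i, ∫ x, pd i (pd (Fin.last m) u) x * pd i η x =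
      ∫ x, fderiv ℝ (pd i u) x (ev m) * pd i η x := by
    intro i
    refine integral_congr_ae (Filter.Eventually.of_forall (fun x => ?_))
    show pd i (pd (Fin.last m) u) x * pd i η x = fderiv ℝ (pd i u) x (ev m) * pd i η x
    by_cases hx : x ∈ tsupport η
    · have hxΩ : x ∈ Ω := hη.2.2 hx
      have huat : ContDiffAt ℝ 2 u x := hu.contDiffAt (hΩ.mem_nhds hxΩ)
      have hsym : IsSymmSndFDerivAt ℝ u x := huat.isSymmSndFDerivAt (by simp)
      have hdd : DifferentiableAt ℝ (fderiv ℝ u) x :=
        (huat.fderiv_right (m := 1) (by norm_num)).differentiableAt one_ne_zero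
      have hd : ∀ a b : X m, fderiv ℝ (fun z => fderiv ℝ u z a) x b =
          fderiv ℝ (fderiv ℝ u) x b a := by
        intro a b
        rw [fderiv_clm_apply hdd (differentiableAt_const a)]
        simp
      have h1 : pd i (pd (Fin.last m) u) x = fderiv ℝ (pd i u) x (ev m) := by
        unfold pd
        rw [hd, hd, hsym.eq]
        rfl
      rw [h1]
    · simp [pd_zero hx]
  have hR : ∫ x, g (u x) * pd (Fin.last m) u x * η x =
      ∫ x, fderiv ℝ (fun x => f (u x)) x (ev m) * η x := by
    refine integral_congr_ae (Filter.Eventually.of_forall (fun x => ?_))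
    show g (u x) * pd (Fin.last m) u x * η x = fderiv ℝ (fun x => f (u x)) x (ev m) * η x
    by_cases hx : x ∈ tsupport η
    · have hxΩ : x ∈ Ω := hη.2.2 hx
      have hdu : HasFDerivAt u (fderiv ℝ u x) x :=
        ((hu.differentiableOn (by norm_num) x hxΩ).differentiableAt
          (hΩ.mem_nhds hxΩ)).hasFDerivAt
      have h1 : HasFDerivAt (fun x => f (u x)) (g (u x) • fderiv ℝ u x) x :=
        (hfg (u x) ⟨(hu01 x hxΩ).1, (hu01 x hxΩ).2⟩).comp_hasFDerivAt x hdu
      rw [h1.fderiv]
      rfl
    · simp [val_zero hx]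
  rw [hR, Finset.sum_congr rfl (fun i _ => hL i)]
  exact huniq

end

end Pool.Agent.Run7.h350.EP
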