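import Pool.Agent.Run7.h350.EP.Main
import Pool.Agent.Run7.h350.EP.WV

/-!
Assembly: the final theorem from the pieces.
-/

set_option autoImplicit false

namespace Pool.Agent.Run7.h350.EP

open MeasureTheory Set Topology
open scoped ContDiff

section

variable {m : ℕ}

/-- from the eigenvalue to the inequality -/
lemma lam_pos_imp {V : X m → ℝ} {Ω : Set (X m)} (h : 0 < lam V Ω) :
    ∃ c > 0, ∀ ψ : X m → ℝ, TestS Ω ψ →
      c * ∫ x, ψ x ^ 2 ≤ ∫ x, (gsq ψ x - V x * ψ x ^ 2) := by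
  obtain ⟨c, hc0, hc1⟩ := EReal.lt_iff_exists_real_btwn.mp h
  have hc : 0 < c := by exact_mod_cast hc0
  refine ⟨c, hc, ?_⟩
  intro ψ hψ
  by_cases h0 : ψ = 0
  · have h1 : ∀ x : X m, gsq (0 : X m → ℝ) x = 0 := by
      intro x
      apply gsq_zero
      simp [tsupport]
    subst h0
    simp [h1]
  · have h2 : lam V Ω ≤ (((∫ x, (gsq ψ x - V x * ψ x ^ 2)) / (∫ x, ψ x ^ 2) : ℝ) : EReal) :=
      iInf_le_of_le ψ (iInf_le_of_le hψ (iInf_le_of_le h0 le_rfl))
    have h3 : c < (∫ x, (gsq ψ x - V x * ψ x ^ 2)) / (∫ x, ψ x ^ 2) := by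
      exact_mod_cast hc1.trans_le h2
    have h4 : 0 ≤ ∫ x, ψ x ^ 2 := integral_nonneg (fun x => sq_nonneg _)
    have h5 : 0 < ∫ x, ψ x ^ 2 := by
      rcases h4.eq_or_lt with h6 | h6
      · rw [← h6, div_zero] at h3
        linarith
      · exact h6
    rw [lt_div_iff₀ h5] at h3
    exact h3.le

/-- from the inequality to the eigenvalue -/
lemma lam_pos_of {V : X m → ℝ} {Ω : Set (X m)} {c : ℝ} (hc : 0 < c)
    (h : ∀ ψ : X m → ℝ, TestS Ω ψ →
      c * ∫ x, ψ x ^ 2 ≤ ∫ x, (gsq ψ x - V x * ψ x ^ 2)) : 0 < lam V Ω := by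
  have h1 : ((c : ℝ) : EReal) ≤ lam V Ω := by
    refine le_iInf (fun ψ => le_iInf (fun hψ => le_iInf (fun h0 => ?_)))
    have h2 : 0 < ∫ x, ψ x ^ 2 := by
      obtain ⟨x₀, hx₀⟩ : ∃ x₀, ψ x₀ ≠ 0 := by
        by_contra hcon
        push Not at hcon
        exact h0 (funext hcon)
      refine (hψ.1.continuous.pow 2).integral_pos_of_hasCompactSupport_nonneg_nonzero
        (x := x₀) (HasCompactSupport.intro hψ.2.1 (fun x hx => by simp [val_zero hx]))
        (fun x => sq_nonneg _) (pow_ne_zero 2 hx₀)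
    have h3 := h ψ hψ
    rw [← le_div_iff₀ h2] at h3
    exact_mod_cast h3
  refine lt_of_lt_of_le ?_ h1
  exact_mod_cast hc

/-- **The final theorem from the pieces.** -/
theorem final (hTL : S_TL) (hWV : S_WV) (hPIC : S_PIC) (hREACH : S_REACH) (hHOPF : S_HOPF)
    (hBALL : S_BALL) (hPATCH : S_PATCH) (hTOP : S_TOP)
    (m : ℕ) (f : ℝ → ℝ) (hf : Reaction f)
    (φ : EuclideanSpace ℝ (Fin m) → ℝ) (hφ : ContDiff ℝ 2 φ) (u : X m → ℝ)
    (hu : IsSolution f (epigraph φ) u)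
    (hmono : ∀ x ∈ epigraph φ, 0 < fderiv ℝ u x (ev m))
    (hstab : ∃ R : ℝ, 0 < lam (fun x => derivWithin f (Icc 0 1) (u x))
      (epigraph φ \ Metric.closedBall 0 R)) :
    0 < lam (fun x => derivWithin f (Icc 0 1) (u x)) (epigraph φ) := by
  obtain ⟨hfd, hgc, hf0, hf1, hfpos⟩ := hf
  obtain ⟨hu2, huc, hgrad, hu01, hufr, heq⟩ := hu
  obtain ⟨hΩ, hpre, hup, hgraph, hKex⟩ := hTOP m φ hφ.continuous
  set Ω := epigraph φ with hΩdef
  set g : ℝ → ℝ := derivWithin f (Icc 0 1) with hg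
  obtain ⟨R₀, hR₀⟩ := hstab
  obtain ⟨c, hc, hstabc⟩ := lam_pos_imp hR₀
  have hud : DifferentiableOn ℝ u Ω := hu2.differentiableOn (by norm_num)
  -- u < 1
  have hu1 : ∀ x ∈ Ω, 0 < u x ∧ u x < 1 := by
    intro x hx
    refine ⟨(hu01 x hx).1, ?_⟩
    obtain ⟨ξ, hξ, h4⟩ := exists_hasDerivAt_eq_slope (fun s : ℝ => u (x + s • ev m))
      (fun s : ℝ => fderiv ℝ u (x + s • ev m) (ev m)) one_pos
      (by
        have hline : Continuous (fun s : ℝ => x + s • ev m) := by fun_prop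
        exact hud.continuousOn.comp hline.continuousOn (fun s hs => hup x hx s hs.1))
      (by
        intro s hs
        have hxs := hup x hx s hs.1.le
        have h5 : HasFDerivAt u (fderiv ℝ u (x + s • ev m)) (x + s • ev m) :=
          ((hud _ hxs).differentiableAt (hΩ.mem_nhds hxs)).hasFDerivAt
        have h6 : HasDerivAt (fun s : ℝ => x + s • ev m) (ev m) s := by
          simpa using ((hasDerivAt_id s).smul_const (ev m)).const_add x
        exact h5.comp_hasDerivAt s h6)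
    have h7 := hmono _ (hup x hx ξ hξ.1.le)
    rw [h4] at h7
    simp only [one_smul, zero_smul, add_zero, sub_zero, div_one] at h7
    have h8 := (hu01 _ (hup x hx 1 zero_le_one)).2
    rw [one_smul] at h8
    linarith
  have hfg : ∀ s ∈ Ioo (0 : ℝ) 1, HasDerivAt f (g s) s := by
    intro s hs
    exact ((hfd s (Ioo_subset_Icc_self hs)).hasDerivWithinAt).hasDerivAt
      (Icc_mem_nhds hs.1 hs.2)
  have hgc' : ContinuousOn g (Ioo (0 : ℝ) 1) := hgc.mono Ioo_subset_Icc_self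
  -- the potential
  set V : X m → ℝ := fun x => g (u x) with hV
  have hVc : ContinuousOn V Ω :=
    hgc'.comp hud.continuousOn (fun x hx => ⟨(hu1 x hx).1, (hu1 x hx).2⟩)
  obtain ⟨V₀, hV₀⟩ := (isCompact_Icc (a := (0 : ℝ)) (b := 1)).exists_bound_of_continuousOn hgc
  have hV₀0 : 0 ≤ V₀ := le_trans (norm_nonneg _) (hV₀ 0 (by simp))
  have hVb : ∀ x ∈ Ω, V x ≤ V₀ := by
    intro x hx
    exact (le_abs_self _).trans (hV₀ (u x) ⟨(hu1 x hx).1.le, (hu1 x hx).2.le⟩)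
  -- v
  set v : X m → ℝ := pd (Fin.last m) u with hv
  have hvC : ContDiffOn ℝ 1 v Ω := by
    have h1 : ContDiffOn ℝ 1 (fderiv ℝ u) Ω := hu2.fderiv_of_isOpen hΩ (by norm_num)
    exact h1.clm_apply contDiffOn_const
  have hv0 : ∀ x ∈ Ω, 0 < v x := hmono
  have hweak : ∀ η : X m → ℝ, Test1 Ω η →
      ∫ x, ∑ i, pd i v x * pd i η x = ∫ x, V x * v x * η x :=
    hWV m Ω u f g hΩ hu2 hu1 hfg hgc' heq
  have hPIC' := hPIC m Ω v V hΩ hvC hv0 hVc hweak
  -- Hopf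
  obtain ⟨p, z, r, hr, hpφ, hball, hdist, hinner⟩ := hBALL m φ hφ
  obtain ⟨hpfr, hpup⟩ := hgraph p hpφ
  have hpcl : p ∈ closure Ω := frontier_subset_closure hpfr
  have hnn : ∀ x ∈ closure Ω, 0 ≤ u x := by
    intro x hx
    by_cases hxΩ : x ∈ Ω
    · exact (hu01 x hxΩ).1.le
    · have : x ∈ frontier Ω := by
        rw [frontier, hΩ.interior_eq]
        exact ⟨hx, hxΩ⟩
      rw [hufr x this]
  have hlap : ∀ x ∈ Ω, lap u x ≤ 0 := by
    intro x hx
    have h1 := heq x hx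
    have h2 := hfpos (u x) ⟨(hu1 x hx).1, (hu1 x hx).2⟩
    linarith
  obtain ⟨c₁, hc₁, t₀, ht₀, hH⟩ := hHOPF m Ω u p z (ev m) r hΩ hr hball hdist
    (hufr p hpfr) huc hnn (fun x hx => (hu01 x hx).1) hu2 hlap hinner
  obtain ⟨L, hL⟩ := hgrad p hpfr
  obtain ⟨r₀, hr₀, hlow⟩ := near_lower hΩ hL hpup hpcl (hufr p hpfr) huc hud hc₁ ht₀ hH
  -- first ball, reach
  have hpatch := hPATCH m φ hφ.continuous v hvC.continuousOn p r₀ (c₁ / 2) hpφ hr₀
    (by positivity) (fun x hx hxb => hlow x hx hxb)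
  have hreach := hREACH m Ω v hΩ hpre hvC.continuousOn hv0 hpatch
  obtain ⟨l, hl, hlmain⟩ := main_est hTL hΩ hvC.continuousOn hv0 hVc hV₀0 hVb hPIC' hreach
    hKex hc hstabc
  exact lam_pos_of hl hlmain

end

end Pool.Agent.Run7.h350.EP
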