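import Mathlib

/-!
# Project EP (helper350): MP_68b192_an, strict stability of the positive solution on epigraphs

Theorem: if the positive bounded solution `u` of `-Δu = f(u)` on a `C²` epigraph `Ω` is increasing in
the vertical direction and stable at infinity, then it is strictly stable.

Proof. `v = ∂_y u > 0` solves `-Δv = f'(u) v`, so (Picone) `Q(ψ) = ∫ |∇ψ|² - f'(u) ψ² = ∫ v² |∇w|²`,
`w = ψ / v`, for all test functions `ψ`. Hopf's lemma at one boundary point `p` gives `v ≥ v₀ > 0` on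
`Ω ∩ B(p, r₀)`; as `w = 0` near the boundary, `∫_b w² ≤ C Q(ψ)` for a small ball `b` near `p`, hence
(moving balls inside `Ω`) `∫_K w² ≤ C_K Q(ψ)` for every compact `K ⊆ Ω`. The strip
`{x ∈ Ω : x - h e ∉ Ω}` carries at most `h² ∫ |∇ψ|²` of the mass of `ψ`, and the complement of a large
ball at most `C Q(ψ) + ¼ ∫ ψ²`, by the stability at infinity. So `∫ ψ² ≤ C Q(ψ)`.

Every `S_XXX : Prop` is one piece: file `Pool/Agent/Run7/<you>/EP/XXX.lean`, importing this file,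
`theorem t_XXX : (hypotheses as said) → S_XXX`.
-/

set_option autoImplicit false

namespace Pool.Agent.Run7.h350.EP

open MeasureTheory Set Topology

/-- the space `ℝ^(m+1)`, last coordinate = vertical -/
abbrev X (m : ℕ) := EuclideanSpace ℝ (Fin (m + 1))

/-- the vertical unit vector -/
noncomputable def ev (m : ℕ) : X m := EuclideanSpace.single (Fin.last m) 1

/-- the horizontal part of a point -/
noncomputable def hor {m : ℕ} (x : X m) : EuclideanSpace ℝ (Fin m) :=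
  WithLp.toLp 2 (fun i : Fin m => x i.castSucc)

/-- the epigraph of `φ` -/
def epigraph {m : ℕ} (φ : EuclideanSpace ℝ (Fin m) → ℝ) : Set (X m) :=
  {x | φ (hor x) < x (Fin.last m)}

/-- partial derivative -/
noncomputable def pd {m : ℕ} (i : Fin (m + 1)) (w : X m → ℝ) (x : X m) : ℝ :=
  fderiv ℝ w x (EuclideanSpace.single i 1)

/-- `|∇w|²` -/
noncomputable def gsq {m : ℕ} (w : X m → ℝ) (x : X m) : ℝ := ∑ i, (pd i w x) ^ 2

/-- the Laplacian -/
noncomputable def lap {m : ℕ} (w : X m → ℝ) (x : X m) : ℝ := ∑ i, pd i (pd i w) x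

/-- `C_c^1(Ω)` -/
def Test1 {m : ℕ} (Ω : Set (X m)) (ψ : X m → ℝ) : Prop :=
  ContDiff ℝ 1 ψ ∧ HasCompactSupport ψ ∧ tsupport ψ ⊆ Ω

/-! ## Pieces -/

/-- **TL** (translation lemma; 100 lines). For `x ∈ A`:
`w (x + τ) - w x = ∫_0^1 (fderiv w (x + tτ)) τ dt`, `((fderiv w y) τ)² ≤ ‖τ‖² gsq w y` (Cauchy-Schwarz,
`τ = Σ τ i • single i 1`), so `(w (x + τ) - w x)² ≤ ‖τ‖² ∫_0^1 (1_G gsq w) (x + tτ) dt`. Integrate over
`A ⊆ univ`, exchange the integrals (e.g. with `lintegral`, everything is continuous with compact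
support times the indicator of `G`), and `∫ (1_G gsq w) (x + tτ) dx = ∫_G gsq w`. -/
def S_TL : Prop :=
  ∀ (m : ℕ) (w : X m → ℝ), ContDiff ℝ 1 w → HasCompactSupport w →
    ∀ (τ : X m) (A G : Set (X m)), MeasurableSet A → MeasurableSet G →
      (∀ x ∈ A, ∀ t ∈ Icc (0 : ℝ) 1, x + t • τ ∈ G) →
      ∫ x in A, (w (x + τ) - w x) ^ 2 ≤ ‖τ‖ ^ 2 * ∫ x in G, gsq w x

/-- **WV** (`v = ∂_y u` solves the linearised equation weakly; 150 lines). `η` has compact support in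
the open set `Ω`. (1) For `F ∈ C_c^1(X)`: `∫ pd i F = 0`
(`integral_mul_fderiv_eq_neg_fderiv_mul_of_integrable` with the constant function 1). (2) Let `|s|` be
so small that `x + s e ∈ Ω` for all `x` in the support of `η`, `u_s x = u (x + s e)`. With
`F = pd i u_s * η` (it is `C^1` and has compact support in `Ω`): `∫ Σ pd i u_s pd i η = ∫ f(u_s) η`
for these `s`. (3) Differentiate at `s = 0` (`hasDerivAt_integral_of_dominated_loc_of_deriv_le`, all
functions are supported in a fixed compact subset of `Ω` where the derivatives are bounded);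
`∂_s pd i u_s = pd last (pd i u) = pd i (pd last u)` (symmetry of the second derivative), and
`∂_s f(u_s) = g(u) pd last u`. -/
def S_WV : Prop :=
  ∀ (m : ℕ) (Ω : Set (X m)) (u : X m → ℝ) (f g : ℝ → ℝ), IsOpen Ω →
    ContDiffOn ℝ 2 u Ω → (∀ x ∈ Ω, 0 < u x ∧ u x < 1) →
    (∀ s ∈ Ioo (0 : ℝ) 1, HasDerivAt f (g s) s) → ContinuousOn g (Ioo (0 : ℝ) 1) →
    (∀ x ∈ Ω, - lap u x = f (u x)) →
    ∀ η : X m → ℝ, Test1 Ω η →
      ∫ x, ∑ i, pd i (pd (Fin.last m) u) x * pd i η x =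
        ∫ x, g (u x) * pd (Fin.last m) u x * η x

/-- **PIC** (Picone identity; 80 lines). `w = ψ / v` is `C^1` on the whole space with compact support
in `Ω` (outside the support of `ψ` it is `0`), so is `η = ψ² / v = ψ w`. On `Ω`:
`∇v · ∇η = |∇ψ|² - v² |∇w|²`, since `∇ψ = w ∇v + v ∇w` and
`∇η = 2 w ∇ψ - w² ∇v`. Integrate and use the hypothesis for `η`. -/
def S_PIC : Prop :=
  ∀ (m : ℕ) (Ω : Set (X m)) (v V : X m → ℝ), IsOpen Ω →
    ContDiffOn ℝ 1 v Ω → (∀ x ∈ Ω, 0 < v x) → ContinuousOn V Ω →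
    (∀ η : X m → ℝ, Test1 Ω η → ∫ x, ∑ i, pd i v x * pd i η x = ∫ x, V x * v x * η x) →
    ∀ ψ : X m → ℝ, Test1 Ω ψ →
      Test1 Ω (fun x => ψ x / v x) ∧
      ∫ x, (gsq ψ x - V x * ψ x ^ 2) = ∫ x, (v x) ^ 2 * gsq (fun y => ψ y / v y) x

/-- **REACH** (from one ball to all compact sets; 100 lines; hypothesis `S_TL`). Let `P x` be: there
are `ρ > 0` and `C` with `ball x ρ ⊆ Ω` and `∫_{ball x ρ} w² ≤ C ∫ v² gsq w` for all `w`. If
`ball x₀ (3 r) ⊆ closedBall x₀ (3 r) ⊆ Ω` then `P` passes from any point of `ball x₀ r` to any other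
(apply `S_TL` with `A = ball x₁ ρ`, `ρ ≤ r`, `τ = x₂ - x₁`, `G = closedBall x₀ (3 r)`, where
`v² ≥ const > 0` by compactness, and `w (x + τ)² ≤ 2 w x² + 2 (w (x + τ) - w x)²`). So `P` holds on an
open and relatively closed subset of the preconnected set `Ω`, that is everywhere
(`IsPreconnected.subset_of_closure_inter_subset` or similar). Compactness of `K`: finitely many of
these balls. -/
def S_REACH : Prop :=
  ∀ (m : ℕ) (Ω : Set (X m)) (v : X m → ℝ), IsOpen Ω → IsPreconnected Ω →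
    ContinuousOn v Ω → (∀ x ∈ Ω, 0 < v x) →
    (∃ p ∈ Ω, ∃ ρ > 0, ∃ C : ℝ, Metric.ball p ρ ⊆ Ω ∧
      ∀ w : X m → ℝ, Test1 Ω w →
        ∫ x in Metric.ball p ρ, w x ^ 2 ≤ C * ∫ x, (v x) ^ 2 * gsq w x) →
    ∀ K : Set (X m), IsCompact K → K ⊆ Ω →
      ∃ C : ℝ, ∀ w : X m → ℝ, Test1 Ω w → ∫ x in K, w x ^ 2 ≤ C * ∫ x, (v x) ^ 2 * gsq w x

/-- **HOPF** (Hopf's lemma; 150 lines). `m₀ = min u` on `closedBall z (r / 2)` (compact, in `Ω`) is
positive. Let `a > 2 (m + 1) / r²·…` be large (`4 a² s² - 2 a (m + 1) > 0` for `s ≥ r / 2`) and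
`b x = κ (exp (-a ‖x - z‖²) - exp (-a r²))`, with `κ > 0` so small that `b ≤ m₀`. On the annulus
`r / 2 ≤ ‖x - z‖ ≤ r` (compact, in the closure of `Ω`) `lap b > 0`, so `u - b` has no negative minimum
at an inner point (there every second partial derivative of `u - b` is `≥ 0`, see `HasD2.nonneg_of_min`
in `Pool/Agent/Run7/h350/D2.lean`, but `lap u ≤ 0 < lap b`), and `u ≥ b` on both boundary spheres; so
`u ≥ b` on the annulus. Finally `‖p + t e - z‖² = r² - 2 t ⟪z - p, e⟫ + t²‖e‖²`. -/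
def S_HOPF : Prop :=
  ∀ (m : ℕ) (Ω : Set (X m)) (u : X m → ℝ) (p z e : X m) (r : ℝ), IsOpen Ω → 0 < r →
    Metric.ball z r ⊆ Ω → dist p z = r → u p = 0 →
    ContinuousOn u (closure Ω) → (∀ x ∈ closure Ω, 0 ≤ u x) → (∀ x ∈ Ω, 0 < u x) →
    ContDiffOn ℝ 2 u Ω → (∀ x ∈ Ω, lap u x ≤ 0) →
    0 < inner ℝ (z - p) e →
    ∃ c > 0, ∃ t₀ > 0, ∀ t : ℝ, 0 < t → t < t₀ → c * t ≤ u (p + t • e)

/-- **BALL** (interior ball; 80 lines). Let `p` be the point above `x'` on the graph, `g = ∇φ(x')`.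
Since `φ` is `C²`, `φ (x' + ξ) ≤ φ x' + g ξ + K ‖ξ‖²` for `‖ξ‖ ≤ δ` (the derivative of `φ` is
differentiable at `x'`, so `‖fderiv φ y - fderiv φ x'‖ ≤ K ‖y - x'‖` near `x'`; mean value inequality).
Let `ν = (-g, 1)` (not normalised), `z = p + s ν`, `r = s ‖ν‖`, `s` small: a point `q = p + (ξ, η)` of
the ball satisfies `‖(ξ, η)‖² < 2 s (η - g ξ)`, so `K ‖ξ‖² ≤ η - g ξ` if `2 s K ≤ 1`, and
`‖ξ‖ < 2 r ≤ δ`. `⟪z - p, e⟫ = s > 0`. -/
def S_BALL : Prop :=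
  ∀ (m : ℕ) (φ : EuclideanSpace ℝ (Fin m) → ℝ), ContDiff ℝ 2 φ →
    ∃ (p z : X m) (r : ℝ), 0 < r ∧ p (Fin.last m) = φ (hor p) ∧
      Metric.ball z r ⊆ epigraph φ ∧ dist p z = r ∧ 0 < inner ℝ (z - p) (ev m)

/-- **PATCH** (the first ball; 80 lines; hypothesis `S_TL`). Let `0 < δ < r₀ / 4`,
`ρ ≤ δ / 2` with `|φ x' - φ (hor p)| < δ / 2` for `‖x' - hor p‖ < ρ`, `p₁ = p + δ e`. Then
`ball p₁ ρ ⊆ Ω ∩ ball p r₀` and `x - 2 δ e ∉ Ω` for `x ∈ ball p₁ ρ`. Apply `S_TL` to `w` with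
`τ = - 2 δ e`, `A = ball p₁ ρ`, `G = ball p r₀`: `w (x + τ) = 0` as `x + τ ∉ Ω`. And
`gsq w ≤ v₀⁻² v² gsq w` on `ball p r₀` (on `Ω` by `v ≥ v₀`, outside `Ω` because `gsq w = 0` there:
`w` vanishes near every point outside `tsupport w`). -/
def S_PATCH : Prop :=
  ∀ (m : ℕ) (φ : EuclideanSpace ℝ (Fin m) → ℝ), Continuous φ →
    ∀ (v : X m → ℝ), ContinuousOn v (epigraph φ) →
    ∀ (p : X m) (r₀ v₀ : ℝ), p (Fin.last m) = φ (hor p) → 0 < r₀ → 0 < v₀ →
      (∀ x ∈ epigraph φ, x ∈ Metric.ball p r₀ → v₀ ≤ v x) →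
      ∃ p₁ ∈ epigraph φ, ∃ ρ > 0, ∃ C : ℝ, Metric.ball p₁ ρ ⊆ epigraph φ ∧
        ∀ w : X m → ℝ, Test1 (epigraph φ) w →
          ∫ x in Metric.ball p₁ ρ, w x ^ 2 ≤ C * ∫ x, (v x) ^ 2 * gsq w x

/-- **TOP** (topology of an epigraph; 100 lines). `hor` is continuous and linear, so the epigraph is
open; it is the image of the connected set `univ ×ˢ Ioi 0` under the continuous map
`(x', s) ↦ (x', φ x' + s)`. The closure is contained in `{φ (hor x) ≤ x last}`, and the graph is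
contained in the frontier (`p + t e`, `t → 0+`). Items 5, 6: the set is closed and bounded. -/
def S_TOP : Prop :=
  ∀ (m : ℕ) (φ : EuclideanSpace ℝ (Fin m) → ℝ), Continuous φ →
    IsOpen (epigraph φ) ∧ IsPreconnected (epigraph φ) ∧
    (∀ x ∈ epigraph φ, ∀ s : ℝ, 0 ≤ s → x + s • ev m ∈ epigraph φ) ∧
    (∀ p : X m, p (Fin.last m) = φ (hor p) → p ∈ frontier (epigraph φ) ∧
      ∀ s : ℝ, 0 < s → p + s • ev m ∈ epigraph φ) ∧
    (∀ h > (0 : ℝ), ∀ R : ℝ, ∃ K : Set (X m), IsCompact K ∧ K ⊆ epigraph φ ∧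
      ∀ x ∈ Metric.closedBall (0 : X m) R, x - h • ev m ∈ epigraph φ → x ∈ K)

end Pool.Agent.Run7.h350.EP
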