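import Pool.Agent.Run7.h350.EP.Cut

/-!
The main estimate.
-/

set_option autoImplicit false

namespace Pool.Agent.Run7.h350.EP

open MeasureTheory Set Topology
open scoped ContDiff

section

variable {m : ℕ}

lemma norm_ev : ‖ev m‖ = 1 := by simp [ev]

/-- from Hopf's lemma to a lower bound of the vertical derivative near the boundary point -/
theorem near_lower {Ω : Set (X m)} {u : X m → ℝ} {p : X m} {L : X m →L[ℝ] ℝ} {c t₀ : ℝ}
    (hΩ : IsOpen Ω) (hL : Filter.Tendsto (fderiv ℝ u) (𝓝[Ω] p) (𝓝 L))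
    (hpΩ : ∀ s : ℝ, 0 < s → p + s • ev m ∈ Ω) (hp : p ∈ closure Ω) (hu0 : u p = 0)
    (huc : ContinuousOn u (closure Ω)) (hud : DifferentiableOn ℝ u Ω)
    (hc : 0 < c) (ht₀ : 0 < t₀) (hH : ∀ t : ℝ, 0 < t → t < t₀ → c * t ≤ u (p + t • ev m)) :
    ∃ r₀ > 0, ∀ x ∈ Ω, x ∈ Metric.ball p r₀ → c / 2 ≤ fderiv ℝ u x (ev m) := by
  have hLe : Filter.Tendsto (fun x => fderiv ℝ u x (ev m)) (𝓝[Ω] p) (𝓝 (L (ev m))) := by
    have h1 : Continuous (fun A : X m →L[ℝ] ℝ => A (ev m)) := by fun_prop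
    exact (h1.tendsto L).comp hL
  have hcL : c ≤ L (ev m) := by
    by_contra hcon
    push Not at hcon
    have h2 := hLe.eventually (gt_mem_nhds hcon)
    rw [Filter.Eventually, Metric.mem_nhdsWithin_iff] at h2
    obtain ⟨r, hr, h3⟩ := h2
    set t := min t₀ r / 2 with ht
    have hm : 0 < min t₀ r := lt_min ht₀ hr
    have ht0 : 0 < t := by positivity
    have htt₀ : t < t₀ := by
      have := min_le_left t₀ r
      linarith
    have htr : t < r := by
      have := min_le_right t₀ r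
      linarith
    have hline : Continuous (fun s : ℝ => p + s • ev m) := by fun_prop
    obtain ⟨ξ, hξ, h4⟩ := exists_hasDerivAt_eq_slope (fun s : ℝ => u (p + s • ev m))
      (fun s : ℝ => fderiv ℝ u (p + s • ev m) (ev m)) ht0
      (by
        refine huc.comp hline.continuousOn ?_
        intro s hs
        rcases eq_or_lt_of_le hs.1 with h | h
        · simpa [← h] using hp
        · exact subset_closure (hpΩ s h))
      (by
        intro s hs
        have h5 : HasFDerivAt u (fderiv ℝ u (p + s • ev m)) (p + s • ev m) :=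
          ((hud _ (hpΩ s hs.1)).differentiableAt (hΩ.mem_nhds (hpΩ s hs.1))).hasFDerivAt
        have h6 : HasDerivAt (fun s : ℝ => p + s • ev m) (ev m) s := by
          simpa using ((hasDerivAt_id s).smul_const (ev m)).const_add p
        exact h5.comp_hasDerivAt s h6)
    have h7 : fderiv ℝ u (p + ξ • ev m) (ev m) < c := by
      have h8 : p + ξ • ev m ∈ Metric.ball p r ∩ Ω := by
        refine ⟨?_, hpΩ ξ hξ.1⟩
        rw [mem_ball_iff_norm, add_sub_cancel_left, norm_smul, norm_ev, mul_one,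
          Real.norm_of_nonneg hξ.1.le]
        linarith [hξ.2]
      exact h3 h8
    rw [h4] at h7
    have h9 := hH t ht0 htt₀
    simp only [zero_smul, add_zero, hu0, sub_zero] at h7
    rw [div_lt_iff₀ ht0] at h7
    linarith
  have h2 := hLe.eventually (lt_mem_nhds (show c / 2 < L (ev m) by linarith))
  rw [Filter.Eventually, Metric.mem_nhdsWithin_iff] at h2
  obtain ⟨r, hr, h3⟩ := h2
  exact ⟨r, hr, fun x hx hxb => (h3 ⟨hxb, hx⟩).le⟩

/-- the main estimate -/
theorem main_est (hTL : S_TL) {Ω : Set (X m)} {v V : X m → ℝ} (hΩ : IsOpen Ω)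
    (hv : ContinuousOn v Ω) (hv0 : ∀ x ∈ Ω, 0 < v x) (hV : ContinuousOn V Ω)
    {V₀ : ℝ} (hV₀ : 0 ≤ V₀) (hVb : ∀ x ∈ Ω, V x ≤ V₀)
    (hPIC : ∀ ψ : X m → ℝ, Test1 Ω ψ → Test1 Ω (fun x => ψ x / v x) ∧
      ∫ x, (gsq ψ x - V x * ψ x ^ 2) = ∫ x, (v x) ^ 2 * gsq (fun y => ψ y / v y) x)
    (hReach : ∀ K : Set (X m), IsCompact K → K ⊆ Ω →
      ∃ C : ℝ, ∀ w : X m → ℝ, Test1 Ω w → ∫ x in K, w x ^ 2 ≤ C * ∫ x, (v x) ^ 2 * gsq w x)
    (hTop : ∀ h > (0 : ℝ), ∀ R : ℝ, ∃ K : Set (X m), IsCompact K ∧ K ⊆ Ω ∧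
      ∀ x ∈ Metric.closedBall (0 : X m) R, x - h • ev m ∈ Ω → x ∈ K)
    {R₀ c : ℝ} (hc : 0 < c)
    (hstab : ∀ ψ : X m → ℝ, TestS (Ω \ Metric.closedBall 0 R₀) ψ →
      c * ∫ x, ψ x ^ 2 ≤ ∫ x, (gsq ψ x - V x * ψ x ^ 2)) :
    ∃ l > 0, ∀ ψ : X m → ℝ, TestS Ω ψ →
      l * ∫ x, ψ x ^ 2 ≤ ∫ x, (gsq ψ x - V x * ψ x ^ 2) := by
  obtain ⟨θ, R, hR₀R, hR, hθs, hθ0, hθ1, hθg, hθb⟩ := exists_cut m R₀ (c / 8) (by positivity)
  set h : ℝ := 1 / (2 * (1 + V₀)) with hh
  have hhp : 0 < h := by positivity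
  have hh4 : h ^ 2 * V₀ ≤ 1 / 4 := by
    rw [hh, div_pow, one_pow, div_mul_eq_mul_div, one_mul, div_le_div_iff₀ (by positivity) (by norm_num)]
    nlinarith [sq_nonneg (1 - V₀)]
  obtain ⟨K, hKc, hKΩ, hK⟩ := hTop h hhp (2 * R)
  obtain ⟨CK, hCK⟩ := hReach K hKc hKΩ
  obtain ⟨vm, hvm⟩ := hKc.exists_bound_of_continuousOn (hv.mono hKΩ)
  set Cm : ℝ := vm ^ 2 * |CK| with hCm
  have hCm0 : 0 ≤ Cm := by positivity
  set D : ℝ := h ^ 2 + Cm + 2 / c with hD
  have hDp : 0 < D := by positivity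
  refine ⟨1 / (2 * D), by positivity, ?_⟩
  intro ψ hψ
  have hψ1 : Test1 Ω ψ := hψ.test1
  obtain ⟨hw1, hQ⟩ := hPIC ψ hψ1
  set w : X m → ℝ := fun x => ψ x / v x with hw
  set Q : ℝ := ∫ x, (gsq ψ x - V x * ψ x ^ 2) with hQdef
  set M : ℝ := ∫ x, ψ x ^ 2 with hM
  have hv2 : ContinuousOn (fun x => v x ^ 2) Ω := hv.pow 2
  have hE : 0 ≤ ∫ x, (v x) ^ 2 * gsq w x :=
    integral_nonneg (fun x => mul_nonneg (sq_nonneg _) (gsq_nonneg _ _))
  have hQ0 : 0 ≤ Q := by rw [hQ]; exact hE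
  have hM0 : 0 ≤ M := integral_nonneg (fun x => sq_nonneg _)
  have hiψ : Integrable (fun x => ψ x ^ 2) := int_sq hψ1.1 hψ1.2.1
  -- the gradient
  have hG : ∫ x, gsq ψ x ≤ Q + V₀ * M := by
    have h1 : Integrable (fun x => V x * ψ x ^ 2) := int_weight hΩ hψ1 hV
    have h2 : Q = (∫ x, gsq ψ x) - ∫ x, V x * ψ x ^ 2 :=
      integral_sub (int_gsq hψ1.1 hψ1.2.1) h1
    have h3 : ∫ x, V x * ψ x ^ 2 ≤ ∫ x, V₀ * ψ x ^ 2 := by
      refine integral_mono h1 (hiψ.const_mul V₀) (fun x => ?_)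
      by_cases hx : x ∈ tsupport ψ
      · exact mul_le_mul_of_nonneg_right (hVb x (hψ1.2.2 hx)) (sq_nonneg _)
      · simp [val_zero hx]
    rw [integral_const_mul] at h3
    linarith
  -- the strip
  set S : Set (X m) := {x | x ∈ Ω ∧ x - h • ev m ∉ Ω} with hS
  have hSm : MeasurableSet S := by
    have h1 : Continuous (fun x : X m => x - h • ev m) := by fun_prop
    exact hΩ.measurableSet.inter (hΩ.preimage h1).measurableSet.compl
  have hstrip : ∫ x in S, ψ x ^ 2 ≤ h ^ 2 * (Q + V₀ * M) := by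
    have h1 := hTL m ψ hψ1.1 hψ1.2.1 (-(h • ev m)) S univ hSm MeasurableSet.univ
      (fun _ _ _ _ => mem_univ _)
    have h2 : ∫ x in S, (ψ (x + -(h • ev m)) - ψ x) ^ 2 = ∫ x in S, ψ x ^ 2 := by
      refine setIntegral_congr_fun hSm (fun x hx => ?_)
      have h3 : ψ (x + -(h • ev m)) = 0 := by
        refine val_zero (fun hcon => hx.2 ?_)
        rw [sub_eq_add_neg]
        exact hψ1.2.2 hcon
      simp only [h3, zero_sub, neg_sq]
    have h4 : ‖-(h • ev m)‖ = h := by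
      rw [norm_neg, norm_smul, norm_ev, mul_one, Real.norm_of_nonneg hhp.le]
    rw [h2, h4, setIntegral_univ] at h1
    exact h1.trans (mul_le_mul_of_nonneg_left hG (sq_nonneg _))
  -- the compact part
  have hKpart : ∫ x in K, ψ x ^ 2 ≤ Cm * Q := by
    have h1 : ∫ x in K, ψ x ^ 2 ≤ ∫ x in K, vm ^ 2 * w x ^ 2 := by
      refine setIntegral_mono_on hiψ.integrableOn
        ((int_sq hw1.1 hw1.2.1).const_mul _).integrableOn hKc.measurableSet (fun x hx => ?_)
      have h2 : v x ≠ 0 := (hv0 x (hKΩ hx)).ne'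
      have h3 : ψ x = v x * w x := by simp only [hw]; field_simp
      rw [h3, mul_pow]
      refine mul_le_mul_of_nonneg_right ?_ (sq_nonneg _)
      have h4 := hvm x hx
      rw [Real.norm_eq_abs] at h4
      exact sq_le_sq' (by linarith [(abs_le.mp h4).1]) (abs_le.mp h4).2
    rw [integral_const_mul] at h1
    have h5 := hCK w hw1
    have h6 : ∫ x in K, w x ^ 2 ≤ |CK| * Q := by
      rw [hQ]
      exact h5.trans (mul_le_mul_of_nonneg_right (le_abs_self _) hE)
    calc ∫ x in K, ψ x ^ 2 ≤ vm ^ 2 * ∫ x in K, w x ^ 2 := h1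
      _ ≤ vm ^ 2 * (|CK| * Q) := mul_le_mul_of_nonneg_left h6 (sq_nonneg _)
      _ = Cm * Q := by rw [hCm]; ring
  -- the part at infinity
  have hθψ : TestS (Ω \ Metric.closedBall 0 R₀) (fun x => θ x * ψ x) := by
    refine ⟨hθs.mul hψ.1, hψ.2.1.mul_left, ?_⟩
    intro x hx
    refine ⟨hψ.2.2 (tsupport_mul_subset_right hx), ?_⟩
    intro hxR
    have h1 : x ∈ tsupport θ := tsupport_mul_subset_left hx
    refine notMem_tsupport_iff_eventuallyEq.mpr ?_ h1
    have h2 : x ∈ Metric.ball (0 : X m) R := by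
      rw [mem_ball_zero_iff]
      exact lt_of_le_of_lt (mem_closedBall_zero_iff.mp hxR) hR₀R
    filter_upwards [Metric.isOpen_ball.mem_nhds h2] with y hy using hθ0 y hy
  have hinf : c * ∫ x, (θ x * ψ x) ^ 2 ≤ 2 * Q + 2 * (c / 8) * M := by
    have h1 := hstab _ hθψ
    have hθψ1 : Test1 Ω (fun x => θ x * ψ x) :=
      ⟨hθψ.test1.1, hθψ.2.1, hθψ.2.2.trans sdiff_subset⟩
    obtain ⟨h2, h3⟩ := hPIC _ hθψ1
    rw [h3] at h1
    refine h1.trans ?_
    have h4 : (fun y => θ y * ψ y / v y) = fun y => θ y * w y := by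
      funext y; simp only [hw, mul_div_assoc]
    rw [h4] at h2
    simp only [h4]
    have h5 : ∫ x, (v x) ^ 2 * gsq (fun y => θ y * w y) x ≤
        ∫ x, (2 * ((v x) ^ 2 * gsq w x) + 2 * (c / 8) * ψ x ^ 2) := by
      refine integral_mono (int_weight' hΩ h2 hv2)
        (((int_weight' hΩ hw1 hv2).const_mul 2).add (hiψ.const_mul _)) (fun x => ?_)
      by_cases hx : x ∈ Ω
      · have h6 : v x ≠ 0 := (hv0 x hx).ne'
        have h7 : ψ x = v x * w x := by simp only [hw]; field_simp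
        have hdθ : DifferentiableAt ℝ θ x := hθs.differentiable (by simp) x
        have hdw : DifferentiableAt ℝ w x := hw1.1.differentiable one_ne_zero x
        have h8 : ∀ i, pd i (fun y => θ y * w y) x = θ x * pd i w x + w x * pd i θ x := by
          intro i
          unfold pd
          rw [fderiv_fun_mul hdθ hdw]
          simp
        have h9 : gsq (fun y => θ y * w y) x ≤ 2 * gsq w x + 2 * (w x ^ 2 * gsq θ x) := by
          unfold gsq
          rw [Finset.mul_sum, Finset.mul_sum, Finset.mul_sum, ← Finset.sum_add_distrib]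
          refine Finset.sum_le_sum (fun i _ => ?_)
          rw [h8 i]
          have h10 : θ x ^ 2 ≤ 1 := by
            have := hθb x
            nlinarith [this.1, this.2]
          have h11 : (θ x * pd i w x) ^ 2 ≤ (pd i w x) ^ 2 := by
            rw [mul_pow]
            nlinarith [sq_nonneg (pd i w x)]
          nlinarith [sq_nonneg (θ x * pd i w x - w x * pd i θ x)]
        have h12 : w x ^ 2 * gsq θ x ≤ w x ^ 2 * (c / 8) :=
          mul_le_mul_of_nonneg_left (hθg x) (sq_nonneg _)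
        have h13 : (v x) ^ 2 * gsq (fun y => θ y * w y) x ≤
            (v x) ^ 2 * (2 * gsq w x + 2 * (w x ^ 2 * (c / 8))) :=
          mul_le_mul_of_nonneg_left (by linarith) (sq_nonneg _)
        refine h13.trans (le_of_eq ?_)
        rw [h7]; ring
      · have h6 : x ∉ tsupport (fun y => θ y * w y) := fun hcon => hx (h2.2.2 hcon)
        have h7 : 0 ≤ 2 * ((v x) ^ 2 * gsq w x) + 2 * (c / 8) * ψ x ^ 2 := by
          have := gsq_nonneg w x
          positivity
        simpa [gsq_zero h6] using h7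
    rw [integral_add ((int_weight' hΩ hw1 hv2).const_mul 2) (hiψ.const_mul _),
      integral_const_mul, integral_const_mul, ← hQ] at h5
    exact h5
  -- total
  have htot : M ≤ (∫ x in S, ψ x ^ 2) + (∫ x in K, ψ x ^ 2) + ∫ x, (θ x * ψ x) ^ 2 := by
    have hi3 : Integrable (fun x => (θ x * ψ x) ^ 2) := int_sq hθψ.test1.1 hθψ.2.1
    have hiS : Integrable (fun x => S.indicator (fun x => ψ x ^ 2) x) := hiψ.indicator hSm
    have hiK : Integrable (fun x => K.indicator (fun x => ψ x ^ 2) x) :=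
      hiψ.indicator hKc.measurableSet
    have hiSK : Integrable (fun x => S.indicator (fun x => ψ x ^ 2) x +
      K.indicator (fun x => ψ x ^ 2) x) := hiS.add hiK
    rw [← integral_indicator hSm, ← integral_indicator hKc.measurableSet,
      ← integral_add hiS hiK, ← integral_add hiSK hi3]
    refine integral_mono hiψ (hiSK.add hi3) (fun x => ?_)
    have hSn : 0 ≤ S.indicator (fun x => ψ x ^ 2) x :=
      indicator_nonneg (fun _ _ => sq_nonneg _) x
    have hKn : 0 ≤ K.indicator (fun x => ψ x ^ 2) x :=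
      indicator_nonneg (fun _ _ => sq_nonneg _) x
    show ψ x ^ 2 ≤ S.indicator (fun x => ψ x ^ 2) x + K.indicator (fun x => ψ x ^ 2) x +
      (θ x * ψ x) ^ 2
    by_cases hx : x ∈ Ω
    · by_cases hxR : x ∈ Metric.ball (0 : X m) (2 * R)
      · by_cases hxh : x - h • ev m ∈ Ω
        · have hxK : x ∈ K := hK x (Metric.ball_subset_closedBall hxR) hxh
          rw [indicator_of_mem hxK]
          nlinarith [sq_nonneg (θ x * ψ x)]
        · have hxS : x ∈ S := ⟨hx, hxh⟩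
          rw [indicator_of_mem hxS]
          nlinarith [sq_nonneg (θ x * ψ x)]
      · rw [hθ1 x hxR, one_mul]
        linarith
    · have h1 : ψ x = 0 := val_zero (fun hcon => hx (hψ1.2.2 hcon))
      rw [h1]
      nlinarith [sq_nonneg (θ x * (0 : ℝ))]
  have hinf' : ∫ x, (θ x * ψ x) ^ 2 ≤ (2 / c) * Q + M / 4 := by
    have h1 : ∫ x, (θ x * ψ x) ^ 2 ≤ (2 * Q + 2 * (c / 8) * M) / c := by
      rw [le_div_iff₀ hc, mul_comm]; exact hinf
    refine h1.trans (le_of_eq ?_)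
    field_simp
    ring
  have hfin : M ≤ D * Q + M / 2 := by
    have h1 : h ^ 2 * V₀ * M ≤ 1 / 4 * M := mul_le_mul_of_nonneg_right hh4 hM0
    have h2 : D * Q = h ^ 2 * Q + Cm * Q + 2 / c * Q := by rw [hD]; ring
    nlinarith [hstrip, hKpart, hinf', htot]
  rw [div_mul_eq_mul_div, one_mul, div_le_iff₀ (by positivity)]
  linarith

end

end Pool.Agent.Run7.h350.EP
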